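import Pool.Agent.R795.DG.MinPlus

/-!
# Shortest paths: formulas with determinant gates

A directed graph has three layers of `n` vertices and the edge weights `A i k` (first to second
layer), `B k j` (second to third layer) and `C i j` (first to third layer), integers in
`{1, …, n + 1}`. Is some edge `i → j` longer than a path `i → k → j`? The items of the input are the
weights of all edges at `i`, for each vertex `i` of the first layer, and the matrix `B`. This is
decided by comparing `C` with the matrix of the distances in the graph without the edges from the
first to the third layer, so it is a question on the output of APSP.

A formula (`Fml`) is built from real constants, arbitrary real functions of one item, and arbitrary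
real functions of `w` words of length `c log₂ n`, where each word is an arbitrary function of one item,
by the gates

* `pos`: is the value positive? (`1` or `0`),
* `sym`: any fan-in, any real function of the number of positive inputs,
* `det`: the determinant of a real matrix of any order whose entries are formulas (sums and products
  are determinants of order two),
* `reg`: is the matrix over an arbitrary field `K`, of any order, whose entry `(a, b)` is `c' a b` or
  `c a b`, according to whether the formula `(a, b)` is positive or not, regular? (`1` or `0`).

The size is the number of the leaves which are not constants, plus the number of wires which lead to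
gates `sym`. So constants and the orders of the matrices are free. The formula accepts if its value is
positive.

We show that random formulas of size at most `s` with error probability at most `1 / 3` need
`n ^ 4 ≤ 2 * 10 ^ 7 * c w ^ 3 s ^ 2`, that is, size of order `n ^ 2`, for an input of `n + 1` items.

Proof. The weights at a vertex `i` of the first layer can ask for each of the about `n ^ 2 log n` bits
of the matrix `B` (queries of helper697). If `r` leaves see this item, the other parts of the formula
enter the determinants only through `O (r ^ 2)` numbers, so `2 ^ O (r ^ 2 log n)` functions of this
item arise when the other items are fixed (`Pool.Agent.Y649.DG.bound`).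
-/

set_option autoImplicit false

namespace Pool.Agent.Results.MP_885423_lc.DeterminantGates

open Pool.Agent.TH697.Form (IsProb)
open Pool.Agent.TH697.Row (ApproximatesOn)
open Pool.Agent.TH697.Form.MinPlus (Item InRange shortcut)
open Pool.Agent.Y649.DG (Fml)

theorem result : ∀ n c w : ℕ, 32 ≤ n → 1 ≤ c → 1 ≤ w →
    ∀ (Ω : Type) [Fintype Ω] (μ : Ω → ℝ), IsProb μ →
      ∀ (s : ℕ) (F : Ω → Fml (Option (Fin n)) (Item n) w (n ^ c)),
        (∀ ω, (F ω).size ≤ s) →
        ApproximatesOn μ (fun ω => (F ω).accepts) (InRange n (n + 1)) (shortcut n) →
        (n : ℝ) ^ 4 ≤ 2 * 10 ^ 7 * c * w ^ 3 * s ^ 2 :=
  fun _ _ _ hn hc hw _ _ μ hμ s F hs hF =>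
    Pool.Agent.R795.DG.bound_mp hn hc hw μ hμ s F hs hF

end Pool.Agent.Results.MP_885423_lc.DeterminantGates
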