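import Pool.Agent.Y649.DG.Main
import Pool.Agent.Y649.DG.Gen
import Pool.Agent.Y638.RF.Xor

set_option autoImplicit false

/-! # Formulas with determinant gates: products `u_iᵀ M v_i` over `ZMod 2` -/

namespace Pool.Agent.R795.DGX

open Finset Pool.Agent.TH697.Form Pool.Agent.TH697.Row
open Pool.Agent.Y649.DG
open Pool.Agent.Y638.RF.Xor (Item product asks)

theorem bound_xor {n c w : ℕ} (hn : 32 ≤ n) (hc : 1 ≤ c) (hw : 1 ≤ w) {Ω : Type} [Fintype Ω]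
    (μ : Ω → ℝ) (hμ : IsProb μ) (s : ℕ)
    (F : Ω → Fml (Option (Fin n)) (Item n) w (2 ^ c)) (hs : ∀ ω, (F ω).size ≤ s)
    (hF : ApproximatesOn μ (fun ω => (F ω).accepts) (fun _ => True) (product n)) :
    (n : ℝ) ^ 4 ≤ 2 * 10 ^ 7 * (c + Real.logb 2 n) * w ^ 3 * s ^ 2 := by
  classical
  have hn' : (32 : ℝ) ≤ n := by exact_mod_cast hn
  have hw' : (1 : ℝ) ≤ w := by exact_mod_cast hw
  have hc' : (1 : ℝ) ≤ c := by exact_mod_cast hc
  have hs0 : (0 : ℝ) ≤ s := Nat.cast_nonneg s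
  obtain ⟨l, hl'⟩ : ∃ l : ℝ, l = Real.logb 2 (n : ℝ) := ⟨_, rfl⟩
  have hl : (5 : ℝ) ≤ l := by
    have h11 : ((2 : ℝ)) ^ 5 ≤ n := by linarith
    have h12 := Real.logb_le_logb_of_le (by norm_num : (1 : ℝ) < 2) (by positivity) h11
    rw [Real.logb_pow, Real.logb_self_eq_one (by norm_num)] at h12
    norm_num at h12
    rw [hl']
    exact h12
  by_cases hsm : n ^ 3 ≤ s
  · have h1 : (n : ℝ) ^ 3 ≤ s := by exact_mod_cast hsm
    have h2 : (n : ℝ) ^ 4 ≤ (s : ℝ) ^ 2 := by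
      calc (n : ℝ) ^ 4 ≤ (n : ℝ) ^ 6 := pow_le_pow_right₀ (by linarith) (by norm_num)
        _ = ((n : ℝ) ^ 3) ^ 2 := by ring
        _ ≤ (s : ℝ) ^ 2 := pow_le_pow_left₀ (by positivity) h1 2
    have h3 : (1 : ℝ) ≤ w ^ 3 := one_le_pow₀ hw'
    have h4 : (1 : ℝ) ≤ 2 * 10 ^ 7 * (c + Real.logb 2 n) * w ^ 3 := by
      have h5 : (1 : ℝ) ≤ 2 * 10 ^ 7 * (c + Real.logb 2 n) := by rw [← hl']; linarith
      exact one_le_mul_of_one_le_of_one_le h5 h3
    have h5 : 0 ≤ (s : ℝ) ^ 2 := by positivity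
    nlinarith
  have hM : 4 * n ^ 2 * (5 * s + 1) + 2 + s ≤ n ^ 6 := by
    have h1 : s < n ^ 3 := by omega
    have h2 : 4 * n ^ 2 * (5 * s + 1) ≤ 4 * n ^ 2 * (5 * n ^ 3) := Nat.mul_le_mul_left _ (by omega)
    have h3 : 4 * n ^ 2 * (5 * n ^ 3) = 20 * n ^ 5 := by ring
    have h4 : n ^ 3 ≤ n ^ 5 := Nat.pow_le_pow_right (by omega) (by norm_num)
    have h5 : 32 * n ^ 5 ≤ n ^ 6 := by
      calc 32 * n ^ 5 ≤ n * n ^ 5 := Nat.mul_le_mul_right _ hn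
        _ = n ^ 6 := by ring
    have h6 : 1 ≤ n ^ 5 := Nat.one_le_pow _ _ (by omega)
    omega
  have hLL : 1 + 5 * Real.logb 2 ((n ^ 6 : ℕ) : ℝ) +
      ((w : ℝ) - 1) * Real.logb 2 ((2 ^ c : ℕ) : ℝ) ≤ 31 * w * (c + l) := by
    rw [Nat.cast_pow n 6, Nat.cast_pow 2 c, Real.logb_pow, Real.logb_pow, ← hl']
    push_cast
    rw [Real.logb_self_eq_one (by norm_num)]
    have h0 : (1 : ℝ) + 5 * (6 * l) ≤ 31 * l := by linarith
    have h5 : 0 ≤ ((w : ℝ) - 1) * l := mul_nonneg (by linarith) (by linarith)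
    have h6 : 0 ≤ ((w : ℝ) - 1) * c := mul_nonneg (by linarith) (by linarith)
    nlinarith
  have hcard : Fintype.card (Fin n × Fin n) = n * n := by
    rw [Fintype.card_prod, Fintype.card_fin]
  have ht : (100 : ℝ) ≤ n * n := by nlinarith
  have h := bound_sq bound (D := Item n) μ hμ F (fun _ => True) (product n) hF s hs
    (Nat.one_le_pow _ _ (by norm_num)) hw (n ^ 2) (n ^ 6) hM 0 (by norm_num)
    ((univ : Finset (Fin n)).map Function.Embedding.some) (T := Fin n × Fin n) (by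
      intro a ha
      rw [mem_map] at ha
      obtain ⟨i, -, rfl⟩ := ha
      exact asks i)
    ((n : ℝ) * n) ht (by rw [hcard]; push_cast; exact le_rfl) (31 * w * (c + l)) hLL
  rw [card_map, card_univ, Fintype.card_fin] at h
  have h8 : 0 ≤ ((c : ℝ) + l) * w ^ 3 * s ^ 2 := by positivity
  have e1 : (n : ℝ) ^ 2 * (n * n) = n ^ 4 := by ring
  rw [e1] at h
  rw [← hl']
  nlinarith

end Pool.Agent.R795.DGX
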